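import Pool.Agent.H468R2.KA.Final
import Pool.Agent.H110K2.P_insep_iff

/-!
# Kakutani equivalence is not Borel reducible to any Borel action of `S_∞`
-/

set_option autoImplicit false

open MeasureTheory Set

namespace Pool.Agent.Results.MP_013a6c_an.NotClassifiable

universe u v

/-- The first return time `n_A(x) = min {n ≥ 1 : T^n x ∈ A}` (`0` if `x` never returns to `A`,
which for ergodic `T` and `μ A > 0` happens only on a null set). -/
noncomputable def retTime {X : Type*} (T : X → X) (A : Set X) (x : X) : ℕ :=
  sInf {n | 1 ≤ n ∧ T^[n] x ∈ A}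

/-- The induced transformation `T_A x = T^{n_A(x)} x`. -/
noncomputable def induced {X : Type*} (T : X → X) (A : Set X) (x : X) : X :=
  T^[retTime T A x] x

/-- Kakutani equivalence: there are measurable sets `A`, `B` of positive measure and an
isomorphism `φ` (with inverse `ψ`, both defined up to null sets) of `(A, μ(· | A), T_A)` with
`(B, μ(· | B), S_B)`. -/
def KakutaniEquiv {X : Type*} [MeasurableSpace X] (μ : Measure X) (T S : X → X) : Prop :=
  ∃ A B : Set X, MeasurableSet A ∧ MeasurableSet B ∧ μ A ≠ 0 ∧ μ B ≠ 0 ∧
    ∃ φ ψ : X → X, Measurable φ ∧ Measurable ψ ∧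
      (∀ᵐ x ∂(μ.restrict A), φ x ∈ B ∧ ψ (φ x) = x ∧ φ (induced T A x) = induced S B (φ x)) ∧
      (∀ᵐ y ∂(μ.restrict B), ψ y ∈ A ∧ φ (ψ y) = y) ∧
      ∀ E, MeasurableSet E → μ (A ∩ φ ⁻¹' E) / μ A = μ (B ∩ E) / μ B

/-- The ergodic measure preserving automorphisms of `(X, μ)` (not yet modulo null sets). -/
def ErgAut {X : Type*} [MeasurableSpace X] (μ : Measure X) : Type _ :=
  {S : X ≃ᵐ X // Ergodic S μ}

/-- The weak topology on `ErgAut μ`: the coarsest topology for which `S ↦ μ (S⁻¹ E ∩ F)` is
continuous for all measurable sets `E`, `F`. -/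
instance {X : Type*} [MeasurableSpace X] (μ : Measure X) : TopologicalSpace (ErgAut μ) :=
  TopologicalSpace.induced
    (fun S (EF : {E : Set X // MeasurableSet E} × {E : Set X // MeasurableSet E}) =>
      μ ((S.1 ⁻¹' EF.1.1) ∩ EF.2.1)) inferInstance

/-- The space `𝓔` of ergodic transformations modulo null sets with the weak topology: the `T₀`
quotient of `ErgAut μ`.  The first part of `result` says that two transformations are identified
if and only if they are almost everywhere equal. -/
abbrev ErgClass {X : Type*} [MeasurableSpace X] (μ : Measure X) : Type _ :=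
  SeparationQuotient (ErgAut μ)

/-- The Borel structure of the Polish group `S_∞` of all permutations of `ℕ` (topology of
pointwise convergence). -/
def borelPerm : MeasurableSpace (Equiv.Perm ℕ) :=
  MeasurableSpace.generateFrom {U | ∃ i j : ℕ, U = {π : Equiv.Perm ℕ | π i = j}}

/-- The action of `S_∞` on the measurable space `Z` is Borel. -/
def BorelAction (Z : Type v) [MeasurableSpace Z] [MulAction (Equiv.Perm ℕ) Z] : Prop :=
  @Measurable (Equiv.Perm ℕ × Z) Z (borelPerm.prod inferInstance) inferInstance
    (fun p => p.1 • p.2)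

/-- Two ergodic automorphisms give the same point of `𝓔` if and only if they are almost everywhere
equal. -/
theorem mk_eq_mk_iff {X : Type u} [MeasurableSpace X] [StandardBorelSpace X] (μ : Measure X)
    [IsProbabilityMeasure μ] (S S' : ErgAut μ) :
    (SeparationQuotient.mk S : ErgClass μ) = SeparationQuotient.mk S' ↔ ∀ᵐ x ∂μ, S.1 x = S'.1 x := by
  rw [SeparationQuotient.mk_eq_mk]
  exact Pool.H110K2.insep_iff μ S S'

/-- **Kakutani equivalence is not Borel reducible to an action of `S_∞`.**  Let `(X, μ)` be a
standard non-atomic probability space, and let `𝓔` be the space of ergodic automorphisms of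
`(X, μ)` modulo null sets with the weak topology.  For every Borel action of `S_∞` on a standard
Borel space `Z` there is no Borel map `f : 𝓔 → Z` such that `S`, `T` are Kakutani equivalent if and
only if `f S`, `f T` are in the same orbit. -/
theorem result {X : Type u} [MeasurableSpace X] [StandardBorelSpace X] (μ : Measure X)
    [IsProbabilityMeasure μ] [NullSingletonClass μ]
    (Z : Type v) [MeasurableSpace Z] [StandardBorelSpace Z] [MulAction (Equiv.Perm ℕ) Z]
    (hZ : BorelAction Z) :
    ¬ ∃ f : ErgClass μ → Z, @Measurable _ _ (borel (ErgClass μ)) inferInstance f ∧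
      ∀ S T : ErgAut μ, KakutaniEquiv μ S.1 T.1 ↔
        ∃ π : Equiv.Perm ℕ, π • f (SeparationQuotient.mk S) = f (SeparationQuotient.mk T) :=
  Pool.Agent.H468R2.KA.final μ (fun x => measure_singleton x) Z hZ

end Pool.Agent.Results.MP_013a6c_an.NotClassifiable
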